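import Pool.Agent.Lib.MP_492a9e_co.FV.CNTA
import Pool.Agent.Lib.MP_492a9e_co.FV.Defs4
import Pool.Agent.Lib.MP_492a9e_co.FV.CNTB
import Pool.Agent.Lib.MP_492a9e_co.FV.CNTC
import Pool.Agent.Lib.MP_492a9e_co.FV.CNT
import Pool.Agent.Lib.MP_492a9e_co.FV.DEG
import Pool.Agent.Lib.MP_492a9e_co.FV.END4
import Pool.Agent.Lib.MP_492a9e_co.FV.Four

section
/-!
# Removing a laminar family of sets from a closed set, `(2 s + 1)`-edge-connected graphs

As in `FV.CNTA`: if `T` is what `C` removes, then at least `2 s + 1` arcs have one end in `T`; the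
arcs that leave `T` leave `C`, so there are at most `s` of them, and at least `s + 1` arcs enter `T`
from outside the rest.
-/
open Finset WoodR

namespace WoodF

set_option linter.unusedSectionVars false

section
variable {V A : Type} [Fintype V] [DecidableEq V] [Fintype A] [DecidableEq A]

theorem cntak_step {s : ℕ} {tl hd : A → V} {S C : Finset V} (hS : Clo tl hd S)
    (hS' : Clo tl hd (S \ C)) (hl : (lev tl hd C).card ≤ s)
    (h3 : 2 * s + 1 ≤ (crs tl hd (S ∩ C)).card) :
    (entr tl hd (S \ C)).card + 1 ≤ (entr tl hd S).card := by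
  classical
  let X : Finset A := univ.filter fun a => tl a ∉ S ∧ hd a ∈ S ∩ C
  let Y : Finset A := univ.filter fun a => tl a ∈ S ∩ C ∧ hd a ∈ S \ C
  let Z : Finset A := univ.filter fun a => tl a ∉ S ∧ hd a ∈ S \ C
  have h4 : crs tl hd (S ∩ C) ⊆ X ∪ Y := by
    intro a ha
    have h := (mem_filter.1 ha).2
    rw [mem_union, mem_filter, mem_filter]
    have e1 := hS a
    have e2 := hS' a
    simp only [mem_inter, mem_sdiff, mem_univ, true_and] at h e1 e2 ⊢
    tauto
  have h5 : entr tl hd (S \ C) ⊆ Z ∪ Y := by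
    intro a ha
    rw [mem_entr] at ha
    rw [mem_union, mem_filter, mem_filter]
    simp only [mem_inter, mem_sdiff, mem_univ, true_and] at ha ⊢
    tauto
  have h6 : Z ∪ X ⊆ entr tl hd S := by
    intro a ha
    rw [mem_entr]
    rw [mem_union, mem_filter, mem_filter] at ha
    simp only [mem_inter, mem_sdiff, mem_univ, true_and] at ha
    tauto
  have h7 : Disjoint Z X := by
    rw [disjoint_left]
    intro a h1 h2
    have h1 := (mem_filter.1 h1).2.2
    have h2 := (mem_filter.1 h2).2.2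
    exact (mem_sdiff.1 h1).2 (mem_inter.1 h2).2
  have h8 : Y ⊆ lev tl hd C := by
    intro a ha
    have h := (mem_filter.1 ha).2
    exact mem_filter.2 ⟨mem_univ _, (mem_inter.1 h.1).2, (mem_sdiff.1 h.2).2⟩
  have k1 := (card_le_card h4).trans (card_union_le _ _)
  have k2 := (card_le_card h5).trans (card_union_le _ _)
  have k3 := card_le_card h6
  rw [card_union_of_disjoint h7] at k3
  have k4 := card_le_card h8
  omega

/-- the hypotheses on the family -/
structure RemK (s : ℕ) (tl hd : A → V) (U : Finset V) (K : Finset (Finset V)) : Prop where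
  lam : ∀ C ∈ K, ∀ C' ∈ K, C ⊆ C' ∨ C' ⊆ C ∨ Disjoint C C'
  few : ∀ C ∈ K, (lev tl hd C).card ≤ s
  good : ∀ C ∈ K, ∀ a ∈ entr tl hd C, hd a ∈ U → tl a ∉ U
  new : ∀ C ∈ K, ∃ a ∈ entr tl hd C, hd a ∈ U ∧ ∀ C' ∈ K, C' ⊂ C → a ∉ entr tl hd C'

theorem RemK.mono {s : ℕ} {tl hd : A → V} {U : Finset V} {K K' : Finset (Finset V)}
    (h : RemK s tl hd U K) (hK : K' ⊆ K) : RemK s tl hd U K' where
  lam C hC C' hC' := h.lam C (hK hC) C' (hK hC')
  few C hC := h.few C (hK hC)
  good C hC := h.good C (hK hC)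
  new C hC := by
    obtain ⟨a, h1, h2, h3⟩ := h.new C (hK hC)
    exact ⟨a, h1, h2, fun C' hC' => h3 C' (hK hC')⟩

/-- a largest member removes something -/
theorem RemK.top {s : ℕ} {tl hd : A → V} {U : Finset V} {K : Finset (Finset V)}
    (h : RemK s tl hd U K) (hK : K.Nonempty) :
    ∃ C ∈ K, ((U \ (K.erase C).biUnion id) ∩ C).Nonempty := by
  classical
  obtain ⟨C, hC, hmax⟩ := exists_max_image K card hK
  refine ⟨C, hC, ?_⟩
  obtain ⟨a, h1, h2, h3⟩ := h.new C hC
  rw [mem_entr] at h1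
  refine ⟨hd a, ?_⟩
  rw [mem_inter, mem_sdiff, mem_biUnion]
  refine ⟨⟨h2, ?_⟩, h1.2⟩
  rintro ⟨C', hC', h4⟩
  rw [mem_erase] at hC'
  rcases h.lam C hC C' hC'.2 with h5 | h5 | h5
  · exact hC'.1 (eq_of_subset_of_card_le h5 (hmax C' hC'.2)).symm
  · refine h3 C' hC'.2 (ssubset_of_subset_of_ne h5 hC'.1) (mem_entr.2 ⟨fun h6 => h1.1 (h5 h6), h4⟩)
  · exact disjoint_left.1 h5 h1.2 h4

theorem cntak_main {s : ℕ} {tl hd : A → V} {r : V} (h3 : Conn tl hd (2 * s + 1)) {U : Finset V}
    (hU : Clo tl hd U) (hr : r ∉ U) : ∀ K : Finset (Finset V), RemK s tl hd U K →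
    (U \ K.biUnion id).Nonempty →
    (entr tl hd (U \ K.biUnion id)).card + K.card ≤ (entr tl hd U).card := by
  classical
  intro K
  induction K using Finset.strongInduction with
  | H K ih =>
    intro hK hne
    rcases K.eq_empty_or_nonempty with rfl | hKn
    · simp
    obtain ⟨C, hC, hT⟩ := hK.top hKn
    have e1 : U \ K.biUnion id = (U \ (K.erase C).biUnion id) \ C := by
      ext v
      simp only [mem_sdiff, mem_biUnion, mem_erase, id]
      constructor
      · rintro ⟨h1, h2⟩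
        exact ⟨⟨h1, fun ⟨D, hD, h⟩ => h2 ⟨D, hD.2, h⟩⟩, fun h => h2 ⟨C, hC, h⟩⟩
      · rintro ⟨⟨h1, h2⟩, h4⟩
        refine ⟨h1, fun ⟨D, hD, h⟩ => ?_⟩
        by_cases hDC : D = C
        · exact h4 (hDC ▸ h)
        · exact h2 ⟨D, ⟨hDC, hD⟩, h⟩
    have hK' := hK.mono (erase_subset C K)
    have ih' := ih _ (erase_ssubset hC) hK' (by
      rw [e1] at hne
      exact hne.mono sdiff_subset)
    have c1 := cnta_closed hU hK'.good
    have c2 := cnta_closed hU hK.good
    have h5 := cntak_step c1 (e1 ▸ c2) (hK.few C hC) (h3 _ hT (by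
      intro h
      apply hr
      have h6 := mem_univ r
      rw [← h, mem_inter, mem_sdiff] at h6
      exact h6.1.1))
    rw [← e1] at h5
    rw [card_erase_of_mem hC] at ih'
    have h6 := card_pos.2 hKn
    omega

/-- **CNTA** for `(2 s + 1)`-edge-connected graphs -/
theorem cntak (s : ℕ) (tl hd : A → V) (r : V) (τ : ℕ) (h3 : Conn tl hd (2 * s + 1))
    (hτ : Dic tl hd τ) (U : Finset V) (hU : U ∈ F0 tl hd r) (K : Finset (Finset V))
    (hK : RemK s tl hd U K) : τ + K.card ≤ (entr tl hd U).card + 1 := by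
  classical
  have hU' := (mem_filter.1 hU).2
  rcases K.eq_empty_or_nonempty with rfl | hKn
  · rw [card_empty]
    have := hτ U hU'.1 (fun h => hU'.2.2 (h ▸ mem_univ r)) hU'.2.1
    omega
  obtain ⟨C, hC, hT⟩ := hK.top hKn
  have hK' := hK.mono (erase_subset C K)
  have hne : (U \ (K.erase C).biUnion id).Nonempty := hT.mono inter_subset_left
  have h6 := cntak_main h3 hU'.2.1 hU'.2.2 _ hK' hne
  have h7 := hτ _ hne (fun h => hU'.2.2 (by
    have h8 := mem_univ r
    rw [← h, mem_sdiff] at h8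
    exact h8.1)) (cnta_closed hU'.2.1 hK'.good)
  rw [card_erase_of_mem hC] at h6
  have h8 := card_pos.2 hKn
  omega

end

end WoodF
end

section
/-!
# The parts with few leaving arcs, of all times, for a length `l ≥ lenF`

`opk s` are the parts without the root which at most `s` arcs leave. A part `C` of time `t` is good
if `t < lenF a` for the arcs `a` which enter `C`. A good part in `opk s` claims an index as in
`CNTC`; a bad one is counted by a pair `(t, a)` with `lenF a ≤ t < l a`.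
-/
open Finset WoodR

namespace WoodF

set_option linter.unusedSectionVars false

section
variable {V A : Type} [Fintype V] [DecidableEq V] [Fintype A] [DecidableEq A] {N : ℕ}

/-- the parts at time `t` without the root which at most `s` arcs leave -/
noncomputable def opk (tl hd : A → V) (r : V) (s : ℕ) (l : A → ℕ) (t : ℕ) :
    Finset (Finset V) := by
  classical exact (parts tl hd l t).filter fun C => r ∉ C ∧ (lev tl hd C).card ≤ s

theorem mem_opk {tl hd : A → V} {r : V} {s : ℕ} {l : A → ℕ} {t : ℕ} {C : Finset V} :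
    C ∈ opk tl hd r s l t ↔ IsPart tl hd l t C ∧ r ∉ C ∧ (lev tl hd C).card ≤ s := by
  classical
  unfold opk parts
  rw [mem_filter, mem_filter]
  exact ⟨fun h => ⟨h.1.2, h.2⟩, fun h => ⟨⟨mem_univ _, h.1⟩, h.2⟩⟩

theorem opk_entr {tl hd : A → V} {r : V} {s : ℕ} {l : A → ℕ} {t : ℕ} {C : Finset V}
    (h3 : Conn tl hd (2 * s + 1)) (hC : C ∈ opk tl hd r s l t) : (entr tl hd C).Nonempty := by
  have hC' := mem_opk.1 hC
  have h1 := h3 C hC'.1.1 fun h => hC'.2.1 (h ▸ mem_univ r)
  rw [card_crs, ← lev_eq] at h1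
  have h2 := hC'.2.2
  exact card_pos.1 (by omega)

/-- the good part `C` of time `t` claims the index `p` -/
def ClmK (tl hd : A → V) (r : V) (s : ℕ) (U : Fin N → Finset V) (l : A → ℕ) (p : Fin N) (t : ℕ)
    (C : Finset V) : Prop :=
  C ∈ opk tl hd r s l t ∧ (∀ a ∈ entr tl hd C, t < lenF tl hd U a) ∧
    (∃ a ∈ entr tl hd C, hd a ∈ U p ∧ rk U (hd a) p = t) ∧
    ∀ a ∈ entr tl hd C, hd a ∈ U p → rk U (hd a) p ≤ t

theorem exists_clmK {tl hd : A → V} {r : V} {s : ℕ} (h3 : Conn tl hd (2 * s + 1)) {U : Fin N → Finset V} {l : A → ℕ} {t : ℕ}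
    {C : Finset V} (hC : C ∈ opk tl hd r s l t)
    (hg : ∀ a ∈ entr tl hd C, t < lenF tl hd U a) : ∃ p, ClmK tl hd r s U l p t C := by
  classical
  have hC' := mem_opk.1 hC
  have h1 : ∀ a ∈ entr tl hd C, ∃ p, hd a ∈ U p ∧ rk U (hd a) p = t := by
    intro a ha
    refine exists_idx U (hd a) t (lt_of_lt_of_le (hg a ha) ?_)
    unfold lenF
    refine card_le_card fun i hi => ?_
    rw [mem_filter, mem_entr] at hi
    exact mem_filter.2 ⟨mem_univ _, hi.2.2⟩
  have hne : (univ.filter fun p => ∃ a ∈ entr tl hd C, hd a ∈ U p ∧ rk U (hd a) p = t).Nonempty := by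
    obtain ⟨a, ha⟩ := opk_entr h3 hC
    obtain ⟨p, hp⟩ := h1 a ha
    exact ⟨p, mem_filter.2 ⟨mem_univ _, a, ha, hp⟩⟩
  obtain ⟨p, hp, hmin⟩ := exists_min_image _ (fun j : Fin N => (j : ℕ)) hne
  refine ⟨p, hC, hg, (mem_filter.1 hp).2, fun a ha hap => ?_⟩
  obtain ⟨q, hq⟩ := h1 a ha
  have h2 : (p : ℕ) ≤ q := hmin q (mem_filter.2 ⟨mem_univ _, a, ha, hq⟩)
  exact (rk_mono U (hd a) (p := p) (q := q) h2).trans hq.2.le

/-- **OTY** for `(2 s + 1)`-edge-connected graphs and all parts which at most `s` arcs leave -/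
theorem otyk (s : ℕ) (tl hd : A → V) (r : V) (τ : ℕ) (h3 : Conn tl hd (2 * s + 1))
    (hcut : Dic tl hd τ) (U : Fin N → Finset V) (hU : ∀ i, U i ∈ F0 tl hd r) (hL : Lam U)
    (l : A → ℕ) (hl : ∀ a, lenF tl hd U a ≤ l a) (M : ℕ) :
    ∑ t ∈ range M, (opk tl hd r s l t).card + N * τ ≤ ∑ a, l a + N := by
  classical
  have hP : SpecPAR1 := par1
  let K : Fin N → Finset (Finset V) := fun p => univ.filter fun C => ∃ t, ClmK tl hd r s U l p t C
  have hK : ∀ p, τ + (K p).card ≤ (entr tl hd (U p)).card + 1 := by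
    intro p
    refine cntak s tl hd r τ h3 hcut (U p) (hU p) (K p) ⟨?_, ?_, ?_, ?_⟩
    · intro C hC C' hC'
      obtain ⟨t, ht⟩ := (mem_filter.1 hC).2
      obtain ⟨t', ht'⟩ := (mem_filter.1 hC').2
      rcases le_total t t' with h | h
      · rcases hP V A tl hd _ t t' C C' h (mem_opk.1 ht.1).1 (mem_opk.1 ht'.1).1 with h1 | h1
        · exact Or.inl h1
        · exact Or.inr (Or.inr h1)
      · rcases hP V A tl hd _ t' t C' C h (mem_opk.1 ht'.1).1 (mem_opk.1 ht.1).1 with h1 | h1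
        · exact Or.inr (Or.inl h1)
        · exact Or.inr (Or.inr h1.symm)
    · intro C hC
      obtain ⟨t, ht⟩ := (mem_filter.1 hC).2
      exact (mem_opk.1 ht.1).2.2
    · intro C hC a ha hap
      obtain ⟨t, ht⟩ := (mem_filter.1 hC).2
      exact cross hL (ht.2.1 a ha) hap (ht.2.2.2 a ha hap)
    · intro C hC
      obtain ⟨t, ht⟩ := (mem_filter.1 hC).2
      obtain ⟨a, ha, hap, har⟩ := ht.2.2.1
      refine ⟨a, ha, hap, fun C' hC' hss haC' => ?_⟩
      obtain ⟨t', ht'⟩ := (mem_filter.1 hC').2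
      have h1 : t' < t := by
        by_contra hlt
        push Not at hlt
        rcases hP V A tl hd _ t t' C C' hlt (mem_opk.1 ht.1).1 (mem_opk.1 ht'.1).1 with h1 | h1
        · exact hss.2 h1
        · obtain ⟨x, hx⟩ := (mem_opk.1 ht'.1).1.1
          exact Finset.disjoint_left.1 h1 (hss.1 hx) hx
      have h2 := ht'.2.2.2 a haC' hap
      omega
  -- the good parts
  have hS : ((range M).sigma fun t => (opk tl hd r s l t).filter fun C =>
      ∀ a ∈ entr tl hd C, t < lenF tl hd U a).card ≤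
      ((univ : Finset (Fin N)).sigma K).card := by
    refine card_le_card_of_forall_subsingleton
      (fun x y => y.2 = x.2 ∧ ClmK tl hd r s U l y.1 x.1 x.2) ?_ ?_
    · rintro ⟨t, C⟩ hx
      rw [mem_sigma, mem_filter] at hx
      obtain ⟨p, hp⟩ := exists_clmK h3 hx.2.1 hx.2.2
      exact ⟨⟨p, C⟩, mem_sigma.2 ⟨mem_univ _, mem_filter.2 ⟨mem_univ _, t, hp⟩⟩, rfl, hp⟩
    · rintro ⟨p, C⟩ _
      rintro ⟨t, C1⟩ ⟨_, h1, h2⟩ ⟨t', C2⟩ ⟨_, h1', h2'⟩
      dsimp only at h1 h2 h1' h2'
      subst h1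
      subst h1'
      obtain ⟨a, ha, hap, har⟩ := h2.2.2.1
      obtain ⟨a', ha', hap', har'⟩ := h2'.2.2.1
      have h3b := h2.2.2.2 a' ha' hap'
      have h4 := h2'.2.2.2 a ha hap
      have h5 : t = t' := by omega
      rw [h5]
  -- the bad parts
  have hB : ((range M).sigma fun t => (opk tl hd r s l t).filter fun C =>
      ¬ ∀ a ∈ entr tl hd C, t < lenF tl hd U a).card ≤
      ((range M).sigma fun t => univ.filter fun a => lenF tl hd U a ≤ t ∧ t < l a).card := by
    refine card_le_card_of_forall_subsingleton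
      (fun x y => y.1 = x.1 ∧ y.2 ∈ entr tl hd x.2) ?_ ?_
    · rintro ⟨t, C⟩ hx
      rw [mem_sigma, mem_filter] at hx
      obtain ⟨hM, hC, hb⟩ := hx
      push Not at hb
      obtain ⟨a, ha, hat⟩ := hb
      exact ⟨⟨t, a⟩, mem_sigma.2 ⟨hM, mem_filter.2 ⟨mem_univ _, hat,
        lt_len (mem_opk.1 hC).1 ha⟩⟩, rfl, ha⟩
    · rintro ⟨s, a⟩ _
      rintro ⟨t, C1⟩ ⟨hm, h1, h2⟩ ⟨t', C2⟩ ⟨hm', h1', h2'⟩
      dsimp only at h1 h2 h1' h2'
      subst h1
      subst h1'
      rw [mem_sigma, mem_filter] at hm hm'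
      have hC1 := (mem_opk.1 hm.2.1).1
      have hC2 := (mem_opk.1 hm'.2.1).1
      have hh1 := (mem_entr.1 h2).2
      have hh2 := (mem_entr.1 h2').2
      have h5 : C1 ⊆ C2 := by
        rcases hP V A tl hd _ s s C1 C2 le_rfl hC1 hC2 with h | h
        · exact h
        · exact absurd hh2 (Finset.disjoint_left.1 h hh1)
      have h6 : C2 ⊆ C1 := by
        rcases hP V A tl hd _ s s C2 C1 le_rfl hC2 hC1 with h | h
        · exact h
        · exact absurd hh1 (Finset.disjoint_left.1 h hh2)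
      rw [Finset.Subset.antisymm h5 h6]
  have hB2 : ((range M).sigma fun t => univ.filter fun a => lenF tl hd U a ≤ t ∧ t < l a).card ≤
      ∑ a, (l a - lenF tl hd U a) := by
    rw [card_sigma]
    simp only [card_filter]
    rw [sum_comm]
    refine sum_le_sum fun a _ => ?_
    rw [← card_filter]
    calc ((range M).filter fun t => lenF tl hd U a ≤ t ∧ t < l a).card ≤
          (Ico (lenF tl hd U a) (l a)).card := by
          refine card_le_card fun t ht => ?_
          exact mem_Ico.2 (mem_filter.1 ht).2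
      _ = l a - lenF tl hd U a := Nat.card_Ico _ _
  rw [card_sigma] at hS hB
  rw [card_sigma] at hS
  have hsplit : ∑ t ∈ range M, (opk tl hd r s l t).card =
      ∑ t ∈ range M, ((opk tl hd r s l t).filter fun C =>
        ∀ a ∈ entr tl hd C, t < lenF tl hd U a).card +
      ∑ t ∈ range M, ((opk tl hd r s l t).filter fun C =>
        ¬ ∀ a ∈ entr tl hd C, t < lenF tl hd U a).card := by
    rw [← sum_add_distrib]
    exact sum_congr rfl fun t _ => (card_filter_add_card_filter_not _).symm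
  have h5 : ∑ p : Fin N, (τ + (K p).card) ≤ ∑ p, ((entr tl hd (U p)).card + 1) :=
    sum_le_sum fun p _ => hK p
  rw [sum_add_distrib, sum_const, card_univ, Fintype.card_fin, smul_eq_mul, sum_add_distrib,
    sum_const, card_univ, Fintype.card_fin, smul_eq_mul, mul_one, ← sum_lenFC] at h5
  have h6 : ∑ a, (l a - lenF tl hd U a) + ∑ a, lenF tl hd U a = ∑ a, l a := by
    rw [← sum_add_distrib]
    exact sum_congr rfl fun a _ => Nat.sub_add_cancel (hl a)
  omega

end

end WoodF
end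

section
/-!
# Degrees of the parts, `(2 s + 1)`-edge-connected graphs

A part without the root has at least `2 s + 2` arcs on its boundary, unless at most `s` arcs leave
it or at most `s` arcs enter it; all parts have at least `2 s + 1`.
-/
open Finset Matrix WoodR

namespace WoodF

set_option linter.unusedSectionVars false

section
variable {V A : Type} [Fintype V] [DecidableEq V] [Fintype A] [DecidableEq A]
variable {tl hd : A → V} {l : A → ℕ} {r : V} {t : ℕ}

/-- the two orientations at one part without the root -/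
theorem deg_partk {s : ℕ} (h3 : Conn tl hd (2 * s + 1)) {C : Finset V}
    (hC : IsPart tl hd l t C) (hr : r ∉ C) :
    2 * s + 2 ≤ (entr tl hd C).card + (entr tl hd Cᶜ).card +
      ((if C ∈ opk tl hd r s l t then 1 else 0) + (if C ∈ opk hd tl r s l t then 1 else 0)) := by
  classical
  have hne : C ≠ univ := fun h => hr (h ▸ mem_univ r)
  have h1 := h3 C hC.1 hne
  rw [card_crs] at h1
  have hO : (entr tl hd Cᶜ).card ≤ s → C ∈ opk tl hd r s l t :=
    fun h => mem_opk.2 ⟨hC, hr, (lev_eq tl hd C) ▸ h⟩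
  have hI : (entr tl hd C).card ≤ s → C ∈ opk hd tl r s l t :=
    fun h => mem_opk.2 ⟨isPart_rev hC, hr, (lev_rev tl hd C).symm ▸ h⟩
  split_ifs with h5 h6 h6
  · omega
  · omega
  · omega
  · have h7 : ¬(entr tl hd Cᶜ).card ≤ s := fun h => h5 (hO h)
    have h8 : ¬(entr tl hd C).card ≤ s := fun h => h6 (hI h)
    omega

/-- one time step -/
theorem deg_timek (s : ℕ) (tl hd : A → V) (l : A → ℕ) (r : V) (t : ℕ)
    (h3 : Conn tl hd (2 * s + 1)) :
    (2 * s + 2) * (parts tl hd l t).card +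
        (if 2 ≤ (parts tl hd l t).card then 2 * s + 1 else 0) ≤
      (2 * s + 2) + 2 * (univ.filter fun a => t < l a).card + (opk tl hd r s l t).card +
        (opk hd tl r s l t).card := by
  classical
  set P := parts tl hd l t with hP
  split_ifs with h2
  swap
  · have h2' : P.card ≤ 1 := by omega
    have h2'' : (2 * s + 2) * P.card ≤ (2 * s + 2) * 1 := Nat.mul_le_mul_left _ h2'
    omega
  have hdis : ∀ C ∈ P, ∀ C' ∈ P, C ≠ C' → Disjoint C C' := by
    intro C hC C' hC' hne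
    rw [disjoint_left]
    intro x hx hx'
    exact hne (part_eq (mem_parts.1 hC) (mem_parts.1 hC') hx hx')
  have hin : ∑ C ∈ P, (entr tl hd C).card ≤ (univ.filter fun a => t < l a).card := by
    rw [← card_biUnion]
    · apply card_le_card
      intro a ha
      obtain ⟨C, hC, ha⟩ := mem_biUnion.1 ha
      rw [mem_entr] at ha
      refine mem_filter.2 ⟨mem_univ _, part_long (mem_parts.1 hC) ?_⟩
      tauto
    · intro C hC C' hC' hne
      change Disjoint (entr tl hd C) (entr tl hd C')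
      rw [disjoint_left]
      intro a ha ha'
      rw [mem_entr] at ha ha'
      exact disjoint_left.1 (hdis C hC C' hC' hne) ha.2 ha'.2
  have hout : ∑ C ∈ P, (entr tl hd Cᶜ).card ≤ (univ.filter fun a => t < l a).card := by
    rw [← card_biUnion]
    · apply card_le_card
      intro a ha
      obtain ⟨C, hC, ha⟩ := mem_biUnion.1 ha
      rw [mem_entr, mem_compl, mem_compl, not_not] at ha
      refine mem_filter.2 ⟨mem_univ _, part_long (mem_parts.1 hC) ?_⟩
      tauto
    · intro C hC C' hC' hne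
      change Disjoint (entr tl hd Cᶜ) (entr tl hd C'ᶜ)
      rw [disjoint_left]
      intro a ha ha'
      rw [mem_entr, mem_compl, mem_compl, not_not] at ha ha'
      exact disjoint_left.1 (hdis C hC C' hC' hne) ha.1 ha'.1
  obtain ⟨C0, hC0, hr0⟩ := exists_part tl hd l t r
  have hC0P : C0 ∈ P := mem_parts.2 hC0
  have hC0ne : C0 ≠ univ := by
    intro h
    have h1 : P.card ≤ 1 := by
      rw [card_le_one]
      intro C hC C' hC'
      obtain ⟨v, hv⟩ := (mem_parts.1 hC).1
      obtain ⟨v', hv'⟩ := (mem_parts.1 hC').1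
      have e1 := part_eq (mem_parts.1 hC) hC0 hv (h ▸ mem_univ v)
      have e2 := part_eq (mem_parts.1 hC') hC0 hv' (h ▸ mem_univ v')
      rw [e1, e2]
    omega
  have hroot : 2 * s + 1 ≤ (entr tl hd C0).card + (entr tl hd C0ᶜ).card := by
    have := h3 C0 hC0.1 hC0ne
    rwa [card_crs] at this
  have hother : ∀ C ∈ P.erase C0, 2 * s + 2 ≤ (entr tl hd C).card + (entr tl hd Cᶜ).card +
      ((if C ∈ opk tl hd r s l t then 1 else 0) +
        (if C ∈ opk hd tl r s l t then 1 else 0)) := by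
    intro C hC
    rw [mem_erase] at hC
    exact deg_partk h3 (mem_parts.1 hC.2) fun hr =>
      hC.1 (part_eq (mem_parts.1 hC.2) hC0 hr hr0)
  have h5 : ∑ C ∈ P.erase C0, (2 * s + 2) ≤ ∑ C ∈ P.erase C0,
      ((entr tl hd C).card + (entr tl hd Cᶜ).card +
      ((if C ∈ opk tl hd r s l t then 1 else 0) +
        (if C ∈ opk hd tl r s l t then 1 else 0))) := sum_le_sum hother
  rw [sum_const, smul_eq_mul, card_erase_of_mem hC0P, sum_add_distrib, sum_add_distrib,
    sum_add_distrib] at h5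
  have h6 : ∑ C ∈ P.erase C0, (if C ∈ opk tl hd r s l t then 1 else 0) ≤
      (opk tl hd r s l t).card := by
    rw [← card_filter]
    exact card_le_card fun C hC => (mem_filter.1 hC).2
  have h7 : ∑ C ∈ P.erase C0, (if C ∈ opk hd tl r s l t then 1 else 0) ≤
      (opk hd tl r s l t).card := by
    rw [← card_filter]
    exact card_le_card fun C hC => (mem_filter.1 hC).2
  rw [← add_sum_erase P _ hC0P] at hin hout
  have h8 : (P.card - 1) * (2 * s + 2) + (2 * s + 2) = (2 * s + 2) * P.card := by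
    have h9 : P.card = (P.card - 1) + 1 := by omega
    conv_rhs => rw [h9]
    ring
  omega

/-- **DEG** for `(2 s + 1)`-edge-connected graphs -/
theorem degk (s : ℕ) (tl hd : A → V) (r : V) (h3 : Conn tl hd (2 * s + 1)) (l : A → ℕ) (M : ℕ) :
    (2 * s + 2) * ∑ t ∈ range M, (parts tl hd l t).card +
        (2 * s + 1) * ((range M).filter fun t => 2 ≤ (parts tl hd l t).card).card ≤
      (2 * s + 2) * M + 2 * ∑ a, l a + ∑ t ∈ range M, (opk tl hd r s l t).card +
        ∑ t ∈ range M, (opk hd tl r s l t).card := by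
  classical
  have h1 : ∑ t ∈ range M, ((2 * s + 2) * (parts tl hd l t).card +
      (if 2 ≤ (parts tl hd l t).card then 2 * s + 1 else 0)) ≤
      ∑ t ∈ range M, ((2 * s + 2) + 2 * (univ.filter fun a => t < l a).card +
        (opk tl hd r s l t).card + (opk hd tl r s l t).card) :=
    sum_le_sum fun t _ => deg_timek s tl hd l r t h3
  have h2 : ∑ t ∈ range M, (if 2 ≤ (parts tl hd l t).card then 2 * s + 1 else 0) =
      (2 * s + 1) * ((range M).filter fun t => 2 ≤ (parts tl hd l t).card).card := by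
    rw [← sum_filter, sum_const, smul_eq_mul, mul_comm]
  rw [sum_add_distrib, sum_add_distrib, sum_add_distrib, sum_add_distrib, ← mul_sum, ← mul_sum,
    sum_const, card_range, smul_eq_mul, h2] at h1
  have h5 := sum_long l M
  rw [mul_comm M] at h1
  omega

end

end WoodF
end

section
/-!
# The theorem for `(2 q + 1)`-edge-connected graphs
-/
open Finset WoodR Matrix

namespace WoodF

set_option linter.unusedSectionVars false

section
variable {V A : Type} [Fintype V] [DecidableEq V] [Fintype A] [DecidableEq A]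

/-- the members of a multiset of closed sets have at least `τ` entering arcs each -/
theorem mul_le_sum {tl hd : A → V} {r : V} {τ : ℕ} (hcut : Dic tl hd τ) {N : ℕ}
    {U : Fin N → Finset V} (hU : ∀ i, U i ∈ F0 tl hd r) {l : A → ℕ}
    (hl : ∀ a, lenF tl hd U a ≤ l a) : N * τ ≤ ∑ a, l a := by
  classical
  calc N * τ = ∑ _i : Fin N, τ := by simp
    _ ≤ ∑ i : Fin N, (entr tl hd (U i)).card := by
        refine sum_le_sum fun i _ => ?_
        obtain ⟨h3, h4, h5⟩ := mem_F0.1 (hU i)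
        exact hcut (U i) h3 (fun h => h5 (h ▸ mem_univ r)) h4
    _ = ∑ a, lenF tl hd U a := (sum_lenFC tl hd U).symm
    _ ≤ ∑ a, l a := sum_le_sum fun a _ => hl a

/-- a basis and two covers -/
theorem triplek (hK : SpecKRU) (hU : SpecUNC) (q : ℕ) (tl hd : A → V) (r : V) (m τ : ℕ)
    (hq : 1 ≤ q) (hm : 2 ≤ m) (h3 : Conn tl hd (2 * q + 1)) (hcut : Dic tl hd τ)
    (hτ : (2 * q + 2) * (m - 1) + 1 ≤ q * τ) (l : A → ℕ) :
    ∃ (e : Wr r → A) (B0 B1 : Finset A), Bas tl hd r e ∧ Cov tl hd r B0 ∧ Cov hd tl r B1 ∧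
      (∑ v, (l (e v) : ℝ)) + (m - 1 + 3 / (8 * Fintype.card V)) * ∑ a ∈ B0, (l a : ℝ) +
        (m - 1 + 3 / (8 * Fintype.card V)) * ∑ a ∈ B1, (l a : ℝ) ≤ ∑ a, (l a : ℝ) := by
  classical
  have hconn : Conn tl hd 1 := fun S a b => le_trans (by omega) (h3 S a b)
  obtain ⟨M, hM⟩ : ∃ M, ∀ a, l a ≤ M :=
    ⟨∑ a, l a, fun a => single_le_sum (fun _ _ => Nat.zero_le _) (mem_univ a)⟩
  obtain ⟨e, he, hsum⟩ := hK V A tl hd r l M hconn hM
  obtain ⟨B0, n0, c0, p0, w0⟩ := cov V A tl hd r hconn l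
  obtain ⟨B1, n1, c1, p1, w1⟩ := cov V A hd tl r (conn_symm hconn) l
  obtain ⟨N0, hN0⟩ : ∃ N, ∑ X ∈ F0 tl hd r, n0 X = N := ⟨_, rfl⟩
  obtain ⟨N1, hN1⟩ : ∃ N, ∑ X ∈ F0 hd tl r, n1 X = N := ⟨_, rfl⟩
  have hex0 := hU V A tl hd r n0
  have hex1 := hU V A hd tl r n1
  rw [hN0] at hex0 w0
  rw [hN1] at hex1 w1
  obtain ⟨U0, u01, u02, u03⟩ := hex0
  obtain ⟨U1, u11, u12, u13⟩ := hex1
  have l0 : ∀ a, lenF tl hd U0 a ≤ l a := fun a => (u03 a).trans_le (p0 a)
  have l1 : ∀ a, lenF hd tl U1 a ≤ l a := fun a => (u13 a).trans_le (p1 a)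
  have g0 := otyk q tl hd r τ h3 hcut U0 u01 u02 l l0 M
  have g1 := otyk q hd tl r τ (conn_symm h3) (dic_symm hcut) U1 u11 u12 l l1 M
  have g2 := degk q tl hd r h3 l M
  have g3 := mul_le_sum hcut u01 l0
  have g4 := mul_le_sum (dic_symm hcut) u11 l1
  set K := ∑ t ∈ range M, (parts tl hd l t).card with hKdef
  set M' := ((range M).filter fun t => 2 ≤ (parts tl hd l t).card).card with hM'
  set n := Fintype.card V with hn
  have hnpos : 1 ≤ n := Fintype.card_pos_iff.2 ⟨r⟩
  -- the basis is short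
  have k1 : K ≤ M + n * M' := by
    have h1 : ∀ t ∈ range M, (parts tl hd l t).card ≤
        1 + n * (if 2 ≤ (parts tl hd l t).card then 1 else 0) := by
      intro t _
      have := parts_card_le tl hd l t
      split_ifs with h
      · rw [← hn] at this
        omega
      · omega
    refine (sum_le_sum h1).trans (le_of_eq ?_)
    rw [sum_add_distrib, ← mul_sum, hM', card_filter]
    simp
  have k2 : ∑ v, l (e v) ≤ n * M' := by omega
  have k3 : N0 ≤ n * M' :=
    (mult_le (fun S a b => bas_cross he a b) u01 l0).trans k2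
  have k4 : N1 ≤ n * M' :=
    (mult_le (fun S a b => by
      rw [crs_symm]
      exact bas_cross he a b) u11 l1).trans k2
  refine ⟨e, B0, B1, he, c0, c1, ?_⟩
  set L := ∑ a, l a with hL
  set E := ∑ v, l (e v) with hE
  have r1 : (∑ a ∈ B0, (l a : ℝ)) ≤ N0 := by exact_mod_cast w0
  have r2 : (∑ a ∈ B1, (l a : ℝ)) ≤ N1 := by exact_mod_cast w1
  have r3 : (N0 : ℝ) ≤ n * M' := by exact_mod_cast k3
  have r4 : (N1 : ℝ) ≤ n * M' := by exact_mod_cast k4
  have rL : ∑ a, (l a : ℝ) = L := by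
    rw [hL]
    push_cast
    rfl
  have rE : ∑ v, (l (e v) : ℝ) = E := by
    rw [hE]
    push_cast
    rfl
  rw [rL, rE]
  have s0 : ((∑ t ∈ range M, (opk tl hd r q l t).card : ℕ) : ℝ) + N0 * τ ≤ L + N0 := by
    exact_mod_cast g0
  have s1 : ((∑ t ∈ range M, (opk hd tl r q l t).card : ℕ) : ℝ) + N1 * τ ≤ L + N1 := by
    exact_mod_cast g1
  have s2 : ((2 * q + 2 : ℕ) : ℝ) * K + ((2 * q + 1 : ℕ) : ℝ) * M' ≤
      ((2 * q + 2 : ℕ) : ℝ) * M + 2 * L +
        ((∑ t ∈ range M, (opk tl hd r q l t).card : ℕ) : ℝ) +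
        ((∑ t ∈ range M, (opk hd tl r q l t).card : ℕ) : ℝ) := by exact_mod_cast g2
  have s3 : (N0 : ℝ) * τ ≤ L := by exact_mod_cast g3
  have s4 : (N1 : ℝ) * τ ≤ L := by exact_mod_cast g4
  have s5 : (E : ℝ) + M ≤ K := by exact_mod_cast hsum
  have s6 : (2 * (q : ℝ) + 2) * ((m : ℝ) - 1) + 1 ≤ q * τ := by
    have h1 : (((2 * q + 2) * (m - 1) + 1 : ℕ) : ℝ) ≤ ((q * τ : ℕ) : ℝ) := by exact_mod_cast hτ
    push_cast [Nat.cast_sub (show 1 ≤ m by omega)] at h1
    exact h1
  push_cast at s2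
  have hqr : (1 : ℝ) ≤ q := by exact_mod_cast hq
  have hN0r : (0 : ℝ) ≤ N0 := Nat.cast_nonneg _
  have hN1r : (0 : ℝ) ≤ N1 := Nat.cast_nonneg _
  have hM'r : (0 : ℝ) ≤ M' := Nat.cast_nonneg _
  have t1 : (2 * (q : ℝ) + 2) * E + (2 * q + 1) * M' + ((τ : ℝ) - 1) * (N0 + N1) ≤ 4 * L := by
    have h1 : (2 * (q : ℝ) + 2) * (E + M) ≤ (2 * q + 2) * K :=
      mul_le_mul_of_nonneg_left s5 (by linarith)
    push_cast at s0 s1
    nlinarith
  have t2 : ((q : ℝ) - 1) * (τ * (N0 + N1)) ≤ (q - 1) * (2 * L) :=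
    mul_le_mul_of_nonneg_left (by nlinarith) (by linarith)
  have t3 : ((2 * (q : ℝ) + 2) * ((m : ℝ) - 1)) * (N0 + N1) ≤ (q * τ - 1) * (N0 + N1) :=
    mul_le_mul_of_nonneg_right (by linarith) (by linarith)
  have t4 : (2 * (q : ℝ) + 2) * E + (2 * q + 1) * M' +
      (2 * (q : ℝ) + 2) * (((m : ℝ) - 1) * (N0 + N1)) ≤ (2 * q + 2) * L := by nlinarith
  have t5 : (3 / 4 : ℝ) * M' * (2 * q + 2) ≤ (2 * q + 1) * M' := by nlinarith
  have t6 : (E : ℝ) + 3 / 4 * M' + ((m : ℝ) - 1) * (N0 + N1) ≤ L := by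
    have h1 : (2 * (q : ℝ) + 2) * (E + 3 / 4 * M' + ((m : ℝ) - 1) * (N0 + N1)) ≤
        (2 * q + 2) * L := by nlinarith
    exact le_of_mul_le_mul_left h1 (by linarith)
  have hnr : (0 : ℝ) < n := by exact_mod_cast hnpos
  set s : ℝ := 3 / (8 * n) with hs
  have hspos : 0 < s := by positivity
  have hsn : s * n = 3 / 8 := by
    rw [hs]
    field_simp
  have hm1 : (0 : ℝ) ≤ m - 1 := by
    have : (2 : ℝ) ≤ m := by exact_mod_cast hm
    linarith
  have q1 : (m - 1 + s) * (∑ a ∈ B0, (l a : ℝ)) ≤ (m - 1 + s) * N0 :=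
    mul_le_mul_of_nonneg_left r1 (by linarith)
  have q2 : (m - 1 + s) * (∑ a ∈ B1, (l a : ℝ)) ≤ (m - 1 + s) * N1 :=
    mul_le_mul_of_nonneg_left r2 (by linarith)
  have q3 : s * N0 ≤ 3 / 8 * M' := by
    calc s * (N0 : ℝ) ≤ s * (n * M') := mul_le_mul_of_nonneg_left r3 hspos.le
      _ = 3 / 8 * M' := by rw [← mul_assoc, hsn]
  have q4 : s * N1 ≤ 3 / 8 * M' := by
    calc s * (N1 : ℝ) ≤ s * (n * M') := mul_le_mul_of_nonneg_left r4 hspos.le
      _ = 3 / 8 * M' := by rw [← mul_assoc, hsn]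
  nlinarith

/-- the theorem for `m ≥ 2` -/
theorem endk_two (hK : SpecKRU) (hU : SpecUNC) (hV : SpecCV) (hL : SpecLPI) (q : ℕ)
    (tl hd : A → V) (m τ : ℕ) (hq : 1 ≤ q) (hm : 2 ≤ m) (h3 : Conn tl hd (2 * q + 1))
    (hcut : WoodArc.CutGe tl hd τ) (hτ : (2 * q + 2) * (m - 1) + 1 ≤ q * τ) :
    WoodArc.Dij tl hd m := by
  classical
  rcases isEmpty_or_nonempty V with hVe | ⟨⟨r⟩⟩
  · exact ⟨fun _ => ∅, fun i j _ => by simp, fun i U hne => by
      obtain ⟨x, _⟩ := hne
      exact (hVe.false x).elim⟩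
  have hcutF : Dic tl hd τ := by
    intro U h1 h2 h4
    have h5 := hcut (U : Set V) (by simpa using h1) (fun h => h2 (by
      rw [eq_univ_iff_forall]
      intro v
      rw [← mem_coe, h]
      exact Set.mem_univ v)) (fun a ha => mem_coe.2 (h4 a (mem_coe.1 ha)))
    have h6 : {a | tl a ∉ (U : Set V) ∧ hd a ∈ (U : Set V)} = ((entr tl hd U : Finset A) : Set A) := by
      ext a
      rw [mem_coe, mem_entr]
      rfl
    rw [h6, Set.ncard_coe_finset] at h5
    exact h5
  have hconn : Conn tl hd 1 := fun S a b => le_trans (by omega) (h3 S a b)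
  set n : ℕ := Fintype.card V with hn
  have hnpos : 1 ≤ n := Fintype.card_pos_iff.2 ⟨r⟩
  have hnr : (0 : ℝ) < n := by exact_mod_cast hnpos
  set s : ℝ := 3 / (8 * n) with hs
  have hspos : 0 < s := by positivity
  set lam : ℝ := m - 1 + s with hlam
  have hm1 : (1 : ℝ) ≤ m - 1 := by
    have : (2 : ℝ) ≤ m := by exact_mod_cast hm
    linarith
  have hlampos : 0 < lam := by linarith
  -- the triples
  let I : Type := {p : (Wr r → A) × Finset A × Finset A //
    Bas tl hd r p.1 ∧ Cov tl hd r p.2.1 ∧ Cov hd tl r p.2.2}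
  have htr := triplek hK hU q tl hd r m τ hq hm h3 hcutF hτ
  have hIne : Nonempty I := by
    obtain ⟨e, B0, B1, h1, h2, h4, -⟩ := htr fun _ => 0
    exact ⟨⟨(e, B0, B1), h1, h2, h4⟩⟩
  let instI : Fintype I := Fintype.ofFinite I
  let y : I → A → ℝ := fun p a => ((univ.filter fun v => p.1.1 v = a).card : ℝ) +
    lam * (if a ∈ p.1.2.1 then 1 else 0) + lam * (if a ∈ p.1.2.2 then 1 else 0)
  have hpush : ∀ (e : Wr r → A) (f : A → ℝ),
      ∑ a, f a * ((univ.filter fun v => e v = a).card : ℝ) = ∑ v, f (e v) := by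
    intro e f
    have h1 : ∀ a, f a * ((univ.filter fun v => e v = a).card : ℝ) =
        ∑ v, if e v = a then f (e v) else 0 := by
      intro a
      rw [← sum_filter, sum_congr rfl (g := fun _ => f a) fun v hv => by
        rw [(mem_filter.1 hv).2], sum_const, nsmul_eq_mul, mul_comm]
    rw [sum_congr rfl fun a _ => h1 a, sum_comm]
    exact sum_congr rfl fun v _ => by rw [sum_ite_eq, if_pos (mem_univ _)]
  obtain ⟨w, hw0, hw1, hw2⟩ := sep A I y (fun l => by
    obtain ⟨e, B0, B1, h1, h2, h4, h5⟩ := htr l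
    refine ⟨⟨(e, B0, B1), h1, h2, h4⟩, le_trans (le_of_eq ?_) h5⟩
    simp only [y, mul_add, sum_add_distrib]
    congr 1
    · congr 1
      · exact hpush e fun a => l a
      · rw [mul_sum, ← sum_filter_add_sum_filter_not univ (fun a => a ∈ B0)
          (fun a => (l a : ℝ) * (lam * if a ∈ B0 then 1 else 0))]
        have e1 : ∑ a ∈ univ.filter (fun a => a ∉ B0),
            ((l a : ℝ) * (lam * if a ∈ B0 then 1 else 0)) = 0 := by
          refine sum_eq_zero fun a ha => ?_
          rw [if_neg (mem_filter.1 ha).2]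
          ring
        have e2 : univ.filter (fun a => a ∈ B0) = B0 := by
          ext a
          simp
        rw [e1, e2, add_zero]
        refine sum_congr rfl fun a ha => ?_
        rw [if_pos ha]
        ring
    · rw [mul_sum, ← sum_filter_add_sum_filter_not univ (fun a => a ∈ B1)
        (fun a => (l a : ℝ) * (lam * if a ∈ B1 then 1 else 0))]
      have e1 : ∑ a ∈ univ.filter (fun a => a ∉ B1),
          ((l a : ℝ) * (lam * if a ∈ B1 then 1 else 0)) = 0 := by
        refine sum_eq_zero fun a ha => ?_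
        rw [if_neg (mem_filter.1 ha).2]
        ring
      have e2 : univ.filter (fun a => a ∈ B1) = B1 := by
        ext a
        simp
      rw [e1, e2, add_zero]
      refine sum_congr rfl fun a ha => ?_
      rw [if_pos ha]
      ring)
  let Q : A → ℝ := fun a => ∑ p, w p * (lam * if a ∈ p.1.2.1 then 1 else 0)
  let θ : A → ℝ := fun a => ∑ p, w p * (lam * if a ∈ p.1.2.2 then 1 else 0)
  let T : A → ℝ := fun a => ∑ p, w p * ((univ.filter fun v => p.1.1 v = a).card : ℝ)
  have hsplit : ∀ a, T a + Q a + θ a ≤ 1 := by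
    intro a
    refine le_trans (le_of_eq ?_) (hw2 a)
    simp only [T, Q, θ, y]
    rw [← sum_add_distrib, ← sum_add_distrib]
    exact sum_congr rfl fun p _ => by ring
  have hQ0 : ∀ a, 0 ≤ Q a := fun a => sum_nonneg fun p _ =>
    mul_nonneg (hw0 p) (mul_nonneg hlampos.le (by split_ifs <;> norm_num))
  have hθ0 : ∀ a, 0 ≤ θ a := fun a => sum_nonneg fun p _ =>
    mul_nonneg (hw0 p) (mul_nonneg hlampos.le (by split_ifs <;> norm_num))
  -- the covers
  have hcover : ∀ (E : Finset A) (g : I → Finset A), (∀ p, ∃ a ∈ g p, a ∈ E) →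
      lam ≤ ∑ a ∈ E, ∑ p, w p * (lam * if a ∈ g p then 1 else 0) := by
    intro E g hg
    rw [sum_comm]
    calc lam = ∑ p, w p * lam := by rw [← sum_mul, hw1, one_mul]
      _ ≤ ∑ p, ∑ a ∈ E, w p * (lam * if a ∈ g p then 1 else 0) := by
        refine sum_le_sum fun p _ => ?_
        obtain ⟨a, ha1, ha2⟩ := hg p
        refine le_trans (le_of_eq ?_) (single_le_sum (f := fun a =>
          w p * (lam * if a ∈ g p then 1 else 0)) (fun b _ => mul_nonneg (hw0 p)
          (mul_nonneg hlampos.le (by split_ifs <;> norm_num))) ha2)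
        simp only [if_pos ha1, mul_one]
  -- the conductances
  set K : ℝ := (Fintype.card A : ℝ) + 1 with hKdef
  have hKpos : 0 < K := by positivity
  have hK1 : 1 ≤ K := by
    rw [hKdef]
    have : (0 : ℝ) ≤ Fintype.card A := Nat.cast_nonneg _
    linarith
  set ε : ℝ := s / (2 * K) with hε
  have hεpos : 0 < ε := by positivity
  have hεA : ε * Fintype.card A < s := by
    have h4 : ε * K = s / 2 := by
      rw [hε]
      field_simp
    have h5 : ε * Fintype.card A ≤ ε * K :=
      mul_le_mul_of_nonneg_left (by rw [hKdef]; linarith) hεpos.le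
    linarith
  have hs1 : s < 1 := by
    rw [hs, div_lt_one (by positivity)]
    have : (1 : ℝ) ≤ n := by exact_mod_cast hnpos
    linarith
  obtain ⟨c, hc, hP⟩ := hL V A A tl hd r (fun a => {a}) (fun a => 1 - θ a - Q a) hconn
    (fun k => by
      -- a tree of weight at most the average
      by_contra hno
      push Not at hno
      have h1 : ∑ a, (k a : ℝ) * (1 - θ a - Q a) < ∑ p, w p * ∑ v, (k (p.1.1 v) : ℝ) := by
        have h2 : ∀ p : I, ∑ a, (k a : ℝ) * (1 - θ a - Q a) < ∑ v, (k (p.1.1 v) : ℝ) := by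
          intro p
          have h3 := hno p.1.1 p.2.1
          refine h3.trans_le (le_of_eq ?_)
          push_cast
          refine sum_congr rfl fun v _ => ?_
          simp only [mem_singleton]
          rw [sum_ite_eq, if_pos (mem_univ _)]
        obtain ⟨p0, hp0⟩ : ∃ p, 0 < w p := by
          by_contra h
          push Not at h
          have : ∑ p, w p ≤ 0 := sum_nonpos fun p _ => h p
          linarith
        calc ∑ a, (k a : ℝ) * (1 - θ a - Q a)
            = ∑ p, w p * ∑ a, (k a : ℝ) * (1 - θ a - Q a) := by rw [← sum_mul, hw1, one_mul]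
          _ < ∑ p, w p * ∑ v, (k (p.1.1 v) : ℝ) :=
            sum_lt_sum (fun p _ => mul_le_mul_of_nonneg_left (h2 p).le (hw0 p))
              ⟨p0, mem_univ _, mul_lt_mul_of_pos_left (h2 p0) hp0⟩
      have h2 : ∑ p, w p * ∑ v, (k (p.1.1 v) : ℝ) = ∑ a, (k a : ℝ) * T a := by
        have e1 : ∀ a, (k a : ℝ) * T a =
            ∑ p, w p * ((k a : ℝ) * ((univ.filter fun v => p.1.1 v = a).card : ℝ)) := by
          intro a
          simp only [T]
          rw [mul_sum]
          exact sum_congr rfl fun p _ => by ring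
        rw [sum_congr rfl fun a _ => e1 a, sum_comm]
        refine sum_congr rfl fun p _ => ?_
        rw [← hpush p.1.1 fun a => (k a : ℝ), mul_sum]
      have h3 : ∑ a, (k a : ℝ) * T a ≤ ∑ a, (k a : ℝ) * (1 - θ a - Q a) :=
        sum_le_sum fun a _ => mul_le_mul_of_nonneg_left (by
          have := hsplit a
          linarith) (Nat.cast_nonneg _)
      linarith) ε hεpos
  refine of_split hV tl hd r m hconn c hc θ Q ε hθ0 hQ0 (fun a => ?_) (by linarith) hεpos.le
    (fun U hU => ?_) (fun U hU => ?_)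
  · have := hP a
    rwa [sum_singleton] at this
  · have h1 := hcover (entr tl hd U) (fun p => p.1.2.1) (fun p => p.2.2.1 U hU)
    simp only [Q]
    linarith
  · have h1 := hcover (entr hd tl U) (fun p => p.1.2.2) (fun p => p.2.2.2 U hU)
    simp only [θ]
    linarith

end

end WoodF
end

section
/-!
# Disjoint dijoins from the minimum directed cut and the edge-connectivity
-/
open Finset WoodR

namespace WoodF

/-- all cuts have at least `2 q + 1` arcs, all directed cuts at least `k`, and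
`(2 q + 2) (m - 1) < q k`: there are `m` disjoint dijoins -/
theorem conn_weak (V A : Type) [Fintype V] [Fintype A] (tl hd : A → V) (k q m : ℕ) (hq : 1 ≤ q)
    (hm : (2 * q + 2) * (m - 1) + 1 ≤ q * k)
    (hconn : ∀ S : Set V, S.Nonempty → S ≠ Set.univ →
      2 * q + 1 ≤ {a | ¬(tl a ∈ S ↔ hd a ∈ S)}.ncard)
    (hcut : ∀ U : Set V, (∀ a, tl a ∈ U → hd a ∈ U) → (∃ a, tl a ∉ U ∧ hd a ∈ U) →
      k ≤ {a | tl a ∉ U ∧ hd a ∈ U}.ncard) :
    ∃ J : Fin m → Set A, (∀ i j, i ≠ j → Disjoint (J i) (J j)) ∧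
      ∀ i, ∀ U : Set V, (∀ a, tl a ∈ U → hd a ∈ U) → (∃ a, tl a ∉ U ∧ hd a ∈ U) →
        ∃ a ∈ J i, tl a ∉ U ∧ hd a ∈ U := by
  classical
  rcases Nat.lt_or_ge m 2 with hm2 | hm2
  · interval_cases m
    · exact ⟨fun _ => ∅, fun i => i.elim0, fun i => i.elim0⟩
    · refine ⟨fun _ => Set.univ, fun i j hij => absurd (Subsingleton.elim i j) hij, ?_⟩
      rintro i U h1 ⟨a, ha⟩
      exact ⟨a, Set.mem_univ _, ha⟩
  · have h3 : Conn tl hd (2 * q + 1) := by
      intro S h1 h2
      have h4 := hconn (S : Set V) (by simpa using h1) (fun h => h2 (by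
        rw [eq_univ_iff_forall]
        intro v
        rw [← mem_coe, h]
        exact Set.mem_univ v))
      have h6 : {a | ¬(tl a ∈ (S : Set V) ↔ hd a ∈ (S : Set V))} =
          ((crs tl hd S : Finset A) : Set A) := by
        ext a
        rw [mem_coe, crs, mem_filter]
        simp
      rw [h6, Set.ncard_coe_finset] at h4
      exact h4
    have h5 : WoodArc.CutGe tl hd k := by
      intro U h1 h2 h4
      refine hcut U h4 ?_
      by_contra hno
      push Not at hno
      have h6 := hconn U h1 h2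
      have h7 : {a | ¬(tl a ∈ U ↔ hd a ∈ U)} = ∅ := by
        ext a
        simp only [Set.mem_ofPred_eq, Set.mem_empty_iff_false, iff_false, not_not]
        constructor
        · exact h4 a
        · intro h
          by_contra h'
          exact hno a h' h
      rw [h7, Set.ncard_empty] at h6
      omega
    obtain ⟨J, hJ1, hJ2⟩ := endk_two kru unc cv lpi q tl hd m k hq hm2 h3 h5 hm
    refine ⟨J, hJ1, ?_⟩
    rintro i U h1 ⟨a, ha1, ha2⟩
    refine hJ2 i U ⟨_, ha2⟩ (fun h => ha1 ?_) h1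
    rw [h]
    exact Set.mem_univ _

/-- `⌈q k / (2 q + 2)⌉` disjoint dijoins; for `q = 1` nothing is assumed about the cuts which are
not directed -/
theorem ceil_weak (V A : Type) [Fintype V] [Fintype A] (tl hd : A → V) (k q : ℕ) (hq : 1 ≤ q)
    (hconn : q = 1 ∨ ∀ S : Set V, S.Nonempty → S ≠ Set.univ →
      2 * q + 1 ≤ {a | ¬(tl a ∈ S ↔ hd a ∈ S)}.ncard)
    (hcut : ∀ U : Set V, (∀ a, tl a ∈ U → hd a ∈ U) → (∃ a, tl a ∉ U ∧ hd a ∈ U) →
      k ≤ {a | tl a ∉ U ∧ hd a ∈ U}.ncard) :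
    ∃ J : Fin ((q * k + 2 * q + 1) / (2 * q + 2)) → Set A,
      (∀ i j, i ≠ j → Disjoint (J i) (J j)) ∧
      ∀ i, ∀ U : Set V, (∀ a, tl a ∈ U → hd a ∈ U) → (∃ a, tl a ∉ U ∧ hd a ∈ U) →
        ∃ a ∈ J i, tl a ∉ U ∧ hd a ∈ U := by
  rcases hconn with rfl | hconn
  · refine four_weak V A tl hd _ fun U h1 h2 => le_trans ?_ (hcut U h1 h2)
    omega
  · rcases Nat.eq_zero_or_pos ((q * k + 2 * q + 1) / (2 * q + 2)) with h0 | h0
    · rw [h0]
      exact ⟨fun _ => ∅, fun i => i.elim0, fun i => i.elim0⟩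
    · refine conn_weak V A tl hd k q _ hq ?_ hconn hcut
      obtain ⟨m, hm⟩ : ∃ m, (q * k + 2 * q + 1) / (2 * q + 2) = m + 1 :=
        ⟨_, (Nat.succ_pred_eq_of_pos h0).symm⟩
      rw [hm, Nat.add_sub_cancel]
      have h1 := Nat.div_mul_le_self (q * k + 2 * q + 1) (2 * q + 2)
      rw [hm] at h1
      nlinarith

end WoodF
end
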